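import Pool.Agent.N929.ON.Stm

set_option autoImplicit false

/-! Project ON (helper929), part INJ (helper490): steps of the domain wall are injective -/

namespace Pool.Agent.N490.ON

open Pool.Agent.N929.ON

theorem dir1 : ∀ k : Fin 6, dir (k + 1) + dir (k - 1) = dir k := by decide

theorem dir2 : ∀ k k' : Fin 6, k - 1 = k' + 1 → dir (k + 1) + dir k' = 0 := by decide

theorem dir3 : ∀ k k' : Fin 6, k - 1 = k' - 1 → k = k' := by decide

theorem dir4 : ∀ k k' : Fin 6, k + 1 = k' + 1 → k = k' := by decide

theorem step_pos {σ : ℤ × ℤ → Bool} {s : St} (h : σ (front s) = true) :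
    step σ s = (front s, s.2 - 1) := by
  unfold step
  rw [if_pos h]

theorem step_neg {σ : ℤ × ℤ → Bool} {s : St} (h : ¬ σ (front s) = true) :
    step σ s = (s.1, s.2 + 1) := by
  unfold step
  rw [if_neg h]

theorem mixed {σ : ℤ × ℤ → Bool} {s t : St} (hs : Val σ s) (ht : Val σ t) (h1 : σ (front s) = true)
    (h2 : ¬ σ (front t) = true) : step σ s ≠ step σ t := by
  intro h
  rw [step_pos h1, step_neg h2, Prod.mk.injEq] at h
  obtain ⟨e1, e2⟩ := h
  have h3 : rt t = s.1 := by
    unfold rt
    rw [← e1]
    unfold front
    rw [add_assoc, dir2 _ _ e2, add_zero]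
  have h4 := ht.2
  rw [h3, hs.1] at h4
  exact absurd h4 (by decide)

theorem inj : S_INJ := by
  intro σ
  constructor
  · intro s hs
    by_cases h : σ (front s) = true
    · rw [step_pos h]
      refine ⟨h, ?_⟩
      have e : rt (front s, s.2 - 1) = rt s := by
        unfold rt front
        simp only
        rw [add_assoc, dir1]
      rw [e]
      exact hs.2
    · rw [step_neg h]
      refine ⟨hs.1, ?_⟩
      have e : rt (s.1, s.2 + 1) = front s := rfl
      rw [e]
      exact Bool.eq_false_iff.2 h
  · intro s t hs ht h
    by_cases h1 : σ (front s) = true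
    · by_cases h2 : σ (front t) = true
      · rw [step_pos h1, step_pos h2, Prod.mk.injEq] at h
        obtain ⟨e1, e2⟩ := h
        have e3 := dir3 _ _ e2
        unfold front at e1
        rw [e3] at e1
        exact Prod.ext (add_right_cancel e1) e3
      · exact absurd h (mixed hs ht h1 h2)
    · by_cases h2 : σ (front t) = true
      · exact absurd h.symm (mixed ht hs h2 h1)
      · rw [step_neg h1, step_neg h2, Prod.mk.injEq] at h
        obtain ⟨e1, e2⟩ := h
        exact Prod.ext e1 (dir4 _ _ e2)

end Pool.Agent.N490.ON
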